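import Pool.Agent.Helper604.UMD.Hil

/-!
Project HW (helper79), job HW-KER: the `L²` Hilbert transform has the kernel `1/(π(x-y))` off the
support. Part one: the formula with an explicit Fourier integral.
-/

set_option autoImplicit false

open MeasureTheory Filter Topology Set FourierTransform
open scoped ENNReal NNReal Real ContDiff

namespace Pool.Agent.Q95.HW

open Pool.Agent.Helper604.UMD

/-- The damped symbol. -/
noncomputable def md (δ ξ : ℝ) : ℂ := sym ξ * Complex.exp (-(2 * π * δ * |ξ| : ℝ))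

/-- The damped kernel. -/
noncomputable def kd (δ t : ℝ) : ℝ := t / (π * (t ^ 2 + δ ^ 2))

lemma md_Ioi (δ t : ℝ) {ξ : ℝ} (h : 0 < ξ) :
    Complex.exp (2 * π * t * ξ * Complex.I) * md δ ξ
      = -Complex.I * Complex.exp ((2 * π * (t * Complex.I - δ)) * ξ) := by
  unfold md
  rw [sym_pos h, abs_of_pos h]
  rw [show Complex.exp (2 * π * t * ξ * Complex.I) * (-Complex.I * Complex.exp
    (-(2 * π * δ * ξ : ℝ))) = -Complex.I * (Complex.exp (2 * π * t * ξ * Complex.I) *
    Complex.exp (-(2 * π * δ * ξ : ℝ))) by ring, ← Complex.exp_add]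
  congr 2
  push_cast
  ring

lemma md_Iio (δ t : ℝ) {ξ : ℝ} (h : ξ < 0) :
    Complex.exp (2 * π * t * ξ * Complex.I) * md δ ξ
      = Complex.I * Complex.exp ((2 * π * (t * Complex.I + δ)) * ξ) := by
  unfold md
  rw [sym_neg h, abs_of_neg h]
  rw [show Complex.exp (2 * π * t * ξ * Complex.I) * (Complex.I * Complex.exp
    (-(2 * π * δ * -ξ : ℝ))) = Complex.I * (Complex.exp (2 * π * t * ξ * Complex.I) *
    Complex.exp (-(2 * π * δ * -ξ : ℝ))) by ring, ← Complex.exp_add]
  congr 2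
  push_cast
  ring

lemma re1 {δ : ℝ} (hδ : 0 < δ) (t : ℝ) :
    ((2 * π * (t * Complex.I - δ) : ℂ)).re < 0 := by
  have h : (2 * π * (t * Complex.I - δ) : ℂ).re = -(2 * π * δ) := by
    have : (2 * π * (t * Complex.I - δ) : ℂ)
      = ((-(2 * π * δ) : ℝ) : ℂ) + ((2 * π * t : ℝ) : ℂ) * Complex.I := by
      push_cast
      ring
    rw [this]
    simp
  rw [h]
  have := Real.pi_pos
  have : 0 < 2 * π * δ := by positivity
  linarith

lemma re2 {δ : ℝ} (hδ : 0 < δ) (t : ℝ) :
    0 < ((2 * π * (t * Complex.I + δ) : ℂ)).re := by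
  have h : (2 * π * (t * Complex.I + δ) : ℂ).re = 2 * π * δ := by
    have : (2 * π * (t * Complex.I + δ) : ℂ)
      = ((2 * π * δ : ℝ) : ℂ) + ((2 * π * t : ℝ) : ℂ) * Complex.I := by
      push_cast
      ring
    rw [this]
    simp
  rw [h]
  positivity

lemma md_intI {δ : ℝ} (hδ : 0 < δ) (t : ℝ) :
    IntegrableOn (fun ξ : ℝ => Complex.exp (2 * π * t * ξ * Complex.I) * md δ ξ) (Ioi 0) := by
  have h : IntegrableOn (fun ξ : ℝ => -Complex.I * Complex.exp
      ((2 * π * (t * Complex.I - δ)) * ξ)) (Ioi 0) :=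
    (integrableOn_exp_mul_complex_Ioi (re1 hδ t) 0).const_mul (-Complex.I)
  refine h.congr_fun (fun ξ hξ => ?_) measurableSet_Ioi
  exact (md_Ioi δ t hξ).symm

lemma md_intII {δ : ℝ} (hδ : 0 < δ) (t : ℝ) :
    IntegrableOn (fun ξ : ℝ => Complex.exp (2 * π * t * ξ * Complex.I) * md δ ξ) (Iio 0) := by
  have h : IntegrableOn (fun ξ : ℝ => Complex.I * Complex.exp
      ((2 * π * (t * Complex.I + δ)) * ξ)) (Iio 0) :=
    ((integrableOn_exp_mul_complex_Iic (re2 hδ t) 0).mono_set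
      Iio_subset_Iic_self).const_mul Complex.I
  refine h.congr_fun (fun ξ hξ => ?_) measurableSet_Iio
  exact (md_Iio δ t hξ).symm

lemma md_int {δ : ℝ} (hδ : 0 < δ) (t : ℝ) :
    Integrable (fun ξ : ℝ => Complex.exp (2 * π * t * ξ * Complex.I) * md δ ξ) := by
  have h1 : IntegrableOn (fun ξ : ℝ => Complex.exp (2 * π * t * ξ * Complex.I) * md δ ξ)
      (Iic 0) := by
    rw [integrableOn_Iic_iff_integrableOn_Iio]
    exact md_intII hδ t
  rw [← integrableOn_univ, ← Iic_union_Ioi (a := (0 : ℝ))]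
  exact h1.union (md_intI hδ t)

lemma md_integral {δ : ℝ} (hδ : 0 < δ) (t : ℝ) :
    ∫ ξ : ℝ, Complex.exp (2 * π * t * ξ * Complex.I) * md δ ξ = (kd δ t : ℂ) := by
  have h0 := md_int hδ t
  rw [← intervalIntegral.integral_Iic_add_Ioi (b := (0 : ℝ)) h0.integrableOn h0.integrableOn,
    integral_Iic_eq_integral_Iio]
  have h1 : ∫ ξ in Iio (0 : ℝ), Complex.exp (2 * π * t * ξ * Complex.I) * md δ ξ
      = Complex.I * (1 / (2 * π * (t * Complex.I + δ))) := by
    rw [setIntegral_congr_fun measurableSet_Iio (fun ξ hξ => md_Iio δ t hξ),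
      integral_const_mul, ← integral_Iic_eq_integral_Iio, integral_exp_mul_complex_Iic (re2 hδ t)]
    simp
  have h2 : ∫ ξ in Ioi (0 : ℝ), Complex.exp (2 * π * t * ξ * Complex.I) * md δ ξ
      = -Complex.I * (-1 / (2 * π * (t * Complex.I - δ))) := by
    rw [setIntegral_congr_fun measurableSet_Ioi (fun ξ hξ => md_Ioi δ t hξ),
      integral_const_mul, integral_exp_mul_complex_Ioi (re1 hδ t)]
    simp
  rw [h1, h2]
  unfold kd
  have hpi : (π : ℂ) ≠ 0 := by exact_mod_cast Real.pi_ne_zero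
  have e1 : (t * Complex.I + δ : ℂ) ≠ 0 := by
    intro h
    have := re2 hδ t
    rw [h] at this
    simp at this
  have e2 : (t * Complex.I - δ : ℂ) ≠ 0 := by
    intro h
    have := re1 hδ t
    rw [h] at this
    simp at this
  have e3 : (t ^ 2 + δ ^ 2 : ℂ) ≠ 0 := by
    have : (0 : ℝ) < t ^ 2 + δ ^ 2 := by positivity
    exact_mod_cast this.ne'
  push_cast
  have e4 : (2 * π * (t * Complex.I + δ) : ℂ) ≠ 0 := by
    refine mul_ne_zero (mul_ne_zero two_ne_zero hpi) e1
  have e5 : (2 * π * (t * Complex.I - δ) : ℂ) ≠ 0 := by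
    refine mul_ne_zero (mul_ne_zero two_ne_zero hpi) e2
  have e6 : (π * (t ^ 2 + δ ^ 2) : ℂ) ≠ 0 := mul_ne_zero hpi e3
  rw [mul_one_div, neg_mul, mul_div_assoc', ← neg_div, div_add_div _ _ e4 e5,
    div_eq_div_iff (mul_ne_zero e4 e5) e6]
  linear_combination (4 * (π : ℂ) ^ 2 * t * δ ^ 2) * Complex.I_sq

lemma norm_md_le {δ : ℝ} (hδ : 0 ≤ δ) (ξ : ℝ) : ‖md δ ξ‖ ≤ 1 := by
  unfold md
  rw [norm_mul]
  have h1 : ‖Complex.exp (-(2 * π * δ * |ξ| : ℝ))‖ ≤ 1 := by
    rw [Complex.norm_exp]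
    simp only [Complex.neg_re, Complex.ofReal_re]
    apply Real.exp_le_one_iff.2
    have : 0 ≤ 2 * π * δ * |ξ| := by positivity
    linarith
  calc ‖sym ξ‖ * ‖Complex.exp (-(2 * π * δ * |ξ| : ℝ))‖ ≤ 1 * 1 :=
        mul_le_mul (norm_sym_le ξ) h1 (norm_nonneg _) zero_le_one
    _ = 1 := one_mul 1

lemma md_meas (δ : ℝ) : Measurable (md δ) := by
  unfold md
  exact sym_measurable.mul (by fun_prop)

lemma md_tendsto (ξ : ℝ) : Tendsto (fun δ => md δ ξ) (𝓝[>] 0) (𝓝 (sym ξ)) := by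
  have h : Continuous (fun δ : ℝ => md δ ξ) := by
    unfold md
    fun_prop
  have h1 := (h.tendsto 0).mono_left (nhdsWithin_le_nhds (s := Ioi 0))
  have h2 : md 0 ξ = sym ξ := by
    unfold md
    simp
  rwa [h2] at h1

/-- Fubini. -/
lemma fub {f : ℝ → ℂ} (hf : Integrable f) {δ : ℝ} (hδ : 0 < δ) (x : ℝ) :
    ∫ ξ : ℝ, Complex.exp (2 * π * x * ξ * Complex.I) * (md δ ξ * 𝓕 f ξ)
      = ∫ y, f y * (kd δ (x - y) : ℂ) := by
  have h1 := integral_fourier_mul hf (md_int hδ x)
  have e1 : ∫ ξ : ℝ, Complex.exp (2 * π * x * ξ * Complex.I) * (md δ ξ * 𝓕 f ξ)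
      = ∫ ξ : ℝ, 𝓕 f ξ * (Complex.exp (2 * π * x * ξ * Complex.I) * md δ ξ) := by
    congr 1
    funext ξ
    ring
  rw [e1, h1]
  congr 1
  funext y
  congr 1
  rw [Real.fourier_eq', ← md_integral hδ (x - y)]
  congr 1
  funext ξ
  rw [smul_eq_mul, ← mul_assoc, ← Complex.exp_add]
  congr 2
  simp only [RCLike.inner_apply, conj_trivial]
  push_cast
  ring

/-- The limit of the left side. -/
lemma lim1 {f : ℝ → ℂ} (hf : Integrable (𝓕 f)) (x : ℝ) :
    Tendsto (fun δ => ∫ ξ : ℝ, Complex.exp (2 * π * x * ξ * Complex.I) * (md δ ξ * 𝓕 f ξ))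
      (𝓝[>] 0) (𝓝 (𝓕⁻ (fun ξ => sym ξ * 𝓕 f ξ) x)) := by
  have e1 : 𝓕⁻ (fun ξ => sym ξ * 𝓕 f ξ) x
      = ∫ ξ : ℝ, Complex.exp (2 * π * x * ξ * Complex.I) * (sym ξ * 𝓕 f ξ) := by
    rw [Real.fourierInv_eq']
    congr 1
    funext ξ
    rw [smul_eq_mul]
    congr 2
    simp only [RCLike.inner_apply, conj_trivial]
    push_cast
    ring
  rw [e1]
  refine tendsto_integral_filter_of_dominated_convergence (fun ξ => ‖𝓕 f ξ‖) ?_ ?_ hf.norm ?_
  · refine Eventually.of_forall fun δ => ?_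
    refine AEStronglyMeasurable.mul (by fun_prop) ?_
    exact (md_meas δ).aestronglyMeasurable.mul hf.1
  · filter_upwards [self_mem_nhdsWithin] with δ hδ
    refine Eventually.of_forall fun ξ => ?_
    rw [norm_mul, norm_mul]
    have h1 : ‖Complex.exp (2 * π * x * ξ * Complex.I)‖ = 1 := by
      rw [show (2 * π * x * ξ * Complex.I : ℂ) = ((2 * π * x * ξ : ℝ) : ℂ) * Complex.I by
        push_cast; ring]
      exact Complex.norm_exp_ofReal_mul_I _
    rw [h1, one_mul]
    calc ‖md δ ξ‖ * ‖𝓕 f ξ‖ ≤ 1 * ‖𝓕 f ξ‖ :=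
          mul_le_mul_of_nonneg_right (norm_md_le (le_of_lt hδ) ξ) (norm_nonneg _)
      _ = ‖𝓕 f ξ‖ := one_mul _
  · refine Eventually.of_forall fun ξ => ?_
    exact ((md_tendsto ξ).mul_const _).const_mul _

/-- The limit of the right side. -/
lemma lim2 {f : ℝ → ℂ} (hf : Integrable f) {x : ℝ} (hx : x ∉ tsupport f) :
    Tendsto (fun δ => ∫ y, f y * (kd δ (x - y) : ℂ)) (𝓝[>] 0)
      (𝓝 (((1 / π : ℝ) : ℂ) * ∫ y, f y / ((x - y : ℝ) : ℂ))) := by
  obtain ⟨c, hc, hcx⟩ : ∃ c > 0, ∀ y, f y ≠ 0 → c ≤ |x - y| := by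
    have h1 : (tsupport f)ᶜ ∈ 𝓝 x := (isClosed_tsupport f).isOpen_compl.mem_nhds hx
    obtain ⟨c, hc, hcb⟩ := Metric.mem_nhds_iff.1 h1
    refine ⟨c, hc, fun y hy => ?_⟩
    by_contra h2
    push Not at h2
    have h3 : y ∈ Metric.ball x c := by
      rw [Metric.mem_ball, Real.dist_eq, abs_sub_comm]
      exact h2
    exact hcb h3 (subset_tsupport f hy)
  rw [← integral_const_mul]
  refine tendsto_integral_filter_of_dominated_convergence (fun y => ‖f y‖ * (1 / (π * c)))
    ?_ ?_ (hf.norm.mul_const _) ?_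
  · refine Eventually.of_forall fun δ => ?_
    refine hf.1.mul ?_
    have : Measurable (fun y : ℝ => (kd δ (x - y) : ℂ)) := by
      unfold kd
      fun_prop
    exact this.aestronglyMeasurable
  · filter_upwards [self_mem_nhdsWithin] with δ hδ
    refine Eventually.of_forall fun y => ?_
    rw [norm_mul]
    by_cases hy : f y = 0
    · simp [hy]
    · apply mul_le_mul_of_nonneg_left _ (norm_nonneg _)
      have h1 := hcx y hy
      have h2 : 0 < |x - y| := hc.trans_le h1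
      rw [Complex.norm_real, Real.norm_eq_abs]
      unfold kd
      rw [abs_div, abs_of_pos (show 0 < π * ((x - y) ^ 2 + δ ^ 2) by
        have : 0 < (x - y) ^ 2 := by
          rw [← sq_abs]
          positivity
        have := Real.pi_pos
        positivity), div_le_div_iff₀ (by
          have : 0 < (x - y) ^ 2 := by
            rw [← sq_abs]
            positivity
          have := Real.pi_pos
          positivity) (by positivity), one_mul]
      have h3 : |x - y| * c ≤ |x - y| * |x - y| := mul_le_mul_of_nonneg_left h1 h2.le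
      have h4 : |x - y| * |x - y| = (x - y) ^ 2 := by rw [← sq, sq_abs]
      have h5 : 0 ≤ δ ^ 2 := sq_nonneg δ
      have hpi := Real.pi_pos
      calc |x - y| * (π * c) = π * (|x - y| * c) := by ring
        _ ≤ π * ((x - y) ^ 2 + δ ^ 2) := by
          apply mul_le_mul_of_nonneg_left _ hpi.le
          linarith
  · refine Eventually.of_forall fun y => ?_
    by_cases hy : f y = 0
    · simp [hy]
    · have h1 := hcx y hy
      have h2 : x - y ≠ 0 := by
        intro h
        rw [h, abs_zero] at h1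
        linarith
      have h3 : Tendsto (fun δ => kd δ (x - y)) (𝓝[>] 0) (𝓝 (1 / π * (1 / (x - y)))) := by
        have h4 : ContinuousAt (fun δ : ℝ => kd δ (x - y)) 0 := by
          unfold kd
          apply ContinuousAt.div continuousAt_const (by fun_prop)
          have : (x - y) ^ 2 ≠ 0 := pow_ne_zero 2 h2
          have := Real.pi_ne_zero
          simp only [ne_eq, mul_eq_zero, not_or]
          refine ⟨this, ?_⟩
          rw [zero_pow two_ne_zero, add_zero]
          assumption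
        have h5 := h4.tendsto.mono_left (nhdsWithin_le_nhds (s := Ioi 0))
        have h6 : kd 0 (x - y) = 1 / π * (1 / (x - y)) := by
          unfold kd
          have := Real.pi_ne_zero
          field_simp
          ring
        rwa [h6] at h5
      have h7 : Tendsto (fun δ => f y * (kd δ (x - y) : ℂ)) (𝓝[>] 0)
          (𝓝 (f y * ((1 / π * (1 / (x - y)) : ℝ) : ℂ))) :=
        ((Complex.continuous_ofReal.tendsto _).comp h3).const_mul _
      have h8 : f y * ((1 / π * (1 / (x - y)) : ℝ) : ℂ)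
          = ((1 / π : ℝ) : ℂ) * (f y / ((x - y : ℝ) : ℂ)) := by
        push_cast
        ring
      rwa [h8] at h7

theorem ker_form {f : ℝ → ℂ} (hf : Integrable f) (hf2 : Integrable (𝓕 f)) {x : ℝ}
    (hx : x ∉ tsupport f) :
    𝓕⁻ (fun ξ => sym ξ * 𝓕 f ξ) x = ((1 / π : ℝ) : ℂ) * ∫ y, f y / ((x - y : ℝ) : ℂ) := by
  have h1 := lim1 hf2 x
  have h2 := lim2 hf hx
  refine tendsto_nhds_unique (h1.congr' ?_) h2
  filter_upwards [self_mem_nhdsWithin] with δ hδ
  exact fub hf hδ x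

theorem ker {f : ℝ → ℂ} (hs : ContDiff ℝ ∞ f) (hc : HasCompactSupport f)
    (hf : MemLp f 2 (volume : Measure ℝ)) : ∀ᵐ x, x ∉ tsupport f →
    (HL (hf.toLp f) : ℝ → ℂ) x = ((1 / π : ℝ) : ℂ) * ∫ y, f y / ((x - y : ℝ) : ℂ) := by
  have h1 : Integrable f := hs.continuous.integrable_of_hasCompactSupport hc
  have h3 : Integrable (𝓕 f) := by
    set F : SchwartzMap ℝ ℂ := hc.toSchwartzMap hs with hF
    have h4 : (F : ℝ → ℂ) = f := rfl
    have h5 := (𝓕 F).integrable (μ := (volume : Measure ℝ))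
    rw [SchwartzMap.fourier_coe, h4] at h5
    exact h5
  filter_upwards [HL_of_integrable h1 hf h3] with x hx hxs
  rw [hx]
  exact ker_form h1 h3 hxs

end Pool.Agent.Q95.HW
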