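import Pool.Agent.Q79.HW.StmS
import Pool.Agent.Q95.HW.KerA

/-!
Project HW (helper79), job HW-KER.
-/

set_option autoImplicit false

namespace Pool.Agent.Q95.HW

theorem t_KER : Pool.Agent.Q79.HW.S_KER := fun _ hs hc hf => ker hs hc hf

end Pool.Agent.Q95.HW
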